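import Pool.Agent.R902.T33
import Pool.Agent.R902.PI

/-!
The sum `∑_{k<p} (-3)^{-k} T_k(3,3) M_k(3,3)` modulo `p^3` and `p^4`.
-/

set_option linter.unusedSectionVars false

namespace Pool.Agent.Results.MP_fcf7f4_nt.TrinomialMotzkin

open Finset Pool.Agent.R902

/-- `T_n(b,c) = ∑_{j ≤ n/2} C(n,2j) C(2j,j) b^(n-2j) c^j` -/
def T (b c : ℚ) (n : ℕ) : ℚ :=
  ∑ j ∈ range (n / 2 + 1), (n.choose (2 * j) : ℚ) * ((2 * j).choose j : ℚ) * b ^ (n - 2 * j) * c ^ j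

/-- `M_n(b,c) = ∑_{j ≤ n/2} C(n,2j) C_j b^(n-2j) c^j`, `C_j` the Catalan numbers -/
def M (b c : ℚ) (n : ℕ) : ℚ :=
  ∑ j ∈ range (n / 2 + 1), (n.choose (2 * j) : ℚ) * (catalan j : ℚ) * b ^ (n - 2 * j) * c ^ j

/-- `S(p) = ∑_{k=0}^{p-1} (-3)^{-k} T_k(3,3) M_k(3,3)` -/
def S (p : ℕ) : ℚ := ∑ k ∈ range p, T 3 3 k * M 3 3 k / (-3) ^ k

/-- `a = b` modulo `p^m` in `Z_(p)`: `a - b = p^m c` with the denominator of `c` prime to `p` -/
def Cong (p m : ℕ) (a b : ℚ) : Prop := ∃ c : ℚ, ¬ p ∣ c.den ∧ a - b = (p : ℚ) ^ m * c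

/-- closed form of the partial sums -/
theorem closed (n : ℕ) : 6 * (-3) ^ n * ∑ k ∈ range (n + 1), TriGen.T (3 : ℚ) 3 k *
    TriGen.M (3 : ℚ) 3 k / (-3) ^ k = (n + 1) * (TriGen.T (3 : ℚ) 3 (n + 2) * TriGen.T (3 : ℚ) 3 n
      - (TriGen.T (3 : ℚ) 3 (n + 1)) ^ 2) := by
  induction n with
  | zero =>
    have t0 : TriGen.T (3 : ℚ) 3 0 = 1 := by simp [TriGen.T]
    have m0 : TriGen.M (3 : ℚ) 3 0 = 1 := by simp [TriGen.M]
    have t1 : TriGen.T (3 : ℚ) 3 1 = 3 := by simp [TriGen.T]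
    have t2 := TriGen.relA (3 : ℚ) 3 0
    rw [m0, t1] at t2
    rw [zero_add, Finset.sum_range_one, t0, m0, t1, t2]
    norm_num
  | succ n ih =>
    rw [Finset.sum_range_succ, mul_add]
    have hB := TriGen.relB (3 : ℚ) 3 (n + 1)
    have r1 := TriGen.T_rec (3 : ℚ) 3 (n + 1)
    have r0 := TriGen.T_rec (3 : ℚ) 3 n
    have e : 6 * (-3) ^ (n + 1) * (TriGen.T (3 : ℚ) 3 (n + 1) * TriGen.M (3 : ℚ) 3 (n + 1) /
        (-3) ^ (n + 1)) = 6 * (TriGen.T (3 : ℚ) 3 (n + 1) * TriGen.M (3 : ℚ) 3 (n + 1)) := by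
      have : ((-3 : ℚ)) ^ (n + 1) ≠ 0 := pow_ne_zero _ (by norm_num)
      field_simp
    rw [e]
    have e2 : 6 * (-3) ^ (n + 1) * ∑ k ∈ range (n + 1), TriGen.T (3 : ℚ) 3 k *
        TriGen.M (3 : ℚ) 3 k / (-3) ^ k = -3 * (6 * (-3) ^ n * ∑ k ∈ range (n + 1),
        TriGen.T (3 : ℚ) 3 k * TriGen.M (3 : ℚ) 3 k / (-3) ^ k) := by
      rw [pow_succ (-3 : ℚ) n]
      ring
    rw [e2, ih]
    rw [show n + 1 + 2 = n + 3 by ring, show n + 1 + 1 = n + 2 by ring] at *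
    push_cast at hB r1 r0 ⊢
    have h3 : ((n : ℚ) + 3) ≠ 0 := by positivity
    apply mul_left_cancel₀ h3
    generalize TriGen.T (3 : ℚ) 3 (n + 3) = t3 at *
    generalize TriGen.T (3 : ℚ) 3 (n + 2) = t2 at *
    generalize TriGen.T (3 : ℚ) 3 (n + 1) = t1 at *
    generalize TriGen.T (3 : ℚ) 3 n = t0 at *
    generalize TriGen.M (3 : ℚ) 3 (n + 1) = m1 at *
    linear_combination t1 * hB - ((n : ℚ) + 2) * t1 * r1 + ((n : ℚ) + 3) * t2 * r0

theorem cast_T {Q : Type*} [CommRing Q] (n : ℕ) :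
    ((TriGen.T (3 : ℤ) 3 n : ℤ) : Q) = TriGen.T (3 : Q) 3 n := by
  rw [TriGen.T, TriGen.T, Int.cast_sum]
  refine Finset.sum_congr rfl fun j _ => ?_
  push_cast
  rfl

section

variable (p : ℕ) [hp : Fact p.Prime]

/-- the quadratic extension of `Z/p^3` by a sixth root of unity -/
abbrev Q := QuadraticAlgebra (ZMod (p ^ 3)) (-1) 1

/-- inverses of `1, ..., p-1` -/
noncomputable def I (k : ℕ) : Q p := algebraMap (ZMod (p ^ 3)) (Q p) ((k : ZMod (p ^ 3))⁻¹)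

theorem hq : ((p : ℕ) : Q p) ^ 3 = 0 := by
  have h : ((p : ZMod (p ^ 3))) ^ 3 = 0 := by
    rw [← Nat.cast_pow]
    exact ZMod.natCast_self (p ^ 3)
  have h2 := congrArg (algebraMap (ZMod (p ^ 3)) (Q p)) h
  rwa [map_pow, map_natCast, map_zero] at h2

theorem hI (k : ℕ) (h0 : 0 < k) (hk : k < p) : (k : Q p) * I p k = 1 := by
  rw [I, ← map_natCast (algebraMap (ZMod (p ^ 3)) (Q p)), ← map_mul, mul_inv_natCast p 3 k h0 hk,
    map_one]

theorem hS (h3 : 3 < p) : Leg3.V p (I p) (1 : Q p) = 0 := by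
  have h5 : 5 ≤ p := by
    rcases Nat.lt_or_ge p 5 with h | h
    · have : p = 4 := by omega
      exact absurd hp.1 (by rw [this]; norm_num)
    · exact h
  have h : ((p : ZMod (p ^ 3))) ^ 2 * ∑ k ∈ Ico 1 p, ((k : ZMod (p ^ 3))⁻¹) ^ 2 = 0 := by
    apply pow_mul_eq_zero_one p 2
    rw [map_sum, ← sum_range_inv_pow p 2 (by norm_num) (by omega), Finset.range_eq_Ico,
      Finset.sum_eq_sum_Ico_succ_bot hp.1.pos]
    rw [Nat.cast_zero, inv_zero, zero_pow two_ne_zero, zero_add, zero_add]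
    refine Finset.sum_congr rfl fun k hk => ?_
    have hk := Finset.mem_Ico.1 hk
    rw [map_pow, castHom_inv p 3 k (by omega) hk.2]
  have h2 := congrArg (algebraMap (ZMod (p ^ 3)) (Q p)) h
  rw [map_mul, map_pow, map_natCast, map_zero, map_sum] at h2
  rw [T33.V_fac, ← h2]
  congr 1
  refine Finset.sum_congr rfl fun k _ => ?_
  rw [one_pow, one_mul, I, map_pow]

theorem zeta : ∃ z : Q p, z ^ 2 - z + 1 = 0 := by
  refine ⟨⟨0, 1⟩, ?_⟩
  ext
  · simp [sq, QuadraticAlgebra.re_one]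
  · simp [sq, QuadraticAlgebra.im_one]

theorem pow_zeta (z : Q p) (hz : z ^ 2 - z + 1 = 0) (m : ℕ) :
    z ^ (6 * m + 1) = z ∧ z ^ (6 * m + 5) = 1 - z := by
  have h6 : z ^ 6 = 1 := by
    linear_combination (z ^ 4 + z ^ 3 - z - 1) * hz
  refine ⟨?_, ?_⟩
  · rw [pow_add, pow_mul, h6, one_pow]
    ring
  · rw [pow_add, pow_mul, h6, one_pow]
    linear_combination (z ^ 3 + z ^ 2 - 1) * hz

theorem dvd_of_Q (x : ℤ) (h : ((x : ℤ) : Q p) = 0) : (p : ℤ) ^ 3 ∣ x := by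
  have h1 := congrArg QuadraticAlgebra.re h
  rw [QuadraticAlgebra.re_intCast, QuadraticAlgebra.re_zero,
    ZMod.intCast_zmod_eq_zero_iff_dvd] at h1
  exact_mod_cast h1

end

/-- the congruences for `S(p)` -/
theorem result (p : ℕ) (hp : p.Prime) (h3 : 3 < p) :
    (p % 3 = 1 → Cong p 3 (S p) (2 * (p : ℚ) ^ 2)) ∧
    (p % 3 = 2 → Cong p 4 (S p) ((p : ℚ) ^ 3 - (p : ℚ) ^ 2 - 3 * p)) := by
  have : Fact p.Prime := ⟨hp⟩
  obtain ⟨z, hz⟩ := zeta p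
  have hp1 := hp.one_le
  -- the integers
  set t0 : ℤ := TriGen.T (3 : ℤ) 3 (p - 1) with ht0
  set t1 : ℤ := TriGen.T (3 : ℤ) 3 p with ht1
  set t2 : ℤ := TriGen.T (3 : ℤ) 3 (p + 1) with ht2
  set D : ℤ := t2 * t0 - t1 ^ 2 with hD
  have hrec : ((p : ℤ) + 1) * D = 3 * (2 * p + 1) * t1 * t0 + 3 * p * t0 ^ 2 - (p + 1) * t1 ^ 2 := by
    have h := TriGen.T_rec (3 : ℤ) 3 (p - 1)
    rw [show p - 1 + 2 = p + 1 by omega, show p - 1 + 1 = p by omega, Nat.cast_sub hp1] at h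
    rw [← ht0, ← ht1, ← ht2] at h
    push_cast at h
    rw [hD]
    linear_combination t0 * h
  have hSD : 6 * (-3) ^ (p - 1) * S p = p * (D : ℚ) := by
    have h := closed (p - 1)
    rw [show p - 1 + 1 = p by omega, show p - 1 + 2 = p + 1 by omega, Nat.cast_sub hp1] at h
    rw [hD, ht0, ht1, ht2]
    push_cast at h ⊢
    rw [cast_T, cast_T, cast_T]
    have e : S p = ∑ k ∈ range p, TriGen.T (3 : ℚ) 3 k * TriGen.M (3 : ℚ) 3 k / (-3) ^ k := rfl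
    rw [e, h]
    ring
  have hw : ((-3 : ℤ)) ^ (p - 1) = 3 ^ (p - 1) := by
    apply Even.neg_pow
    have := hp.odd_of_ne_two (by omega)
    rcases this with ⟨m, hm⟩
    exact ⟨m, by omega⟩
  have hd : ¬ p ∣ 6 * 3 ^ (p - 1) := by
    intro h
    rcases hp.dvd_mul.1 h with h | h
    · have h' : p ∣ 2 * 3 := h
      rcases hp.dvd_mul.1 h' with h | h
      · have := Nat.le_of_dvd (by norm_num) h
        omega
      · have := Nat.le_of_dvd (by norm_num) h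
        omega
    · have := Nat.le_of_dvd (by norm_num) (hp.dvd_of_dvd_pow h)
      omega
  have hcop : IsCoprime ((p : ℤ) ^ 3) ((p : ℤ) + 1) := by
    apply IsCoprime.pow_left
    exact ⟨-1, 1, by ring⟩
  have hodd : p % 2 = 1 := by
    have := hp.odd_of_ne_two (by omega)
    exact Nat.odd_iff.1 this
  refine ⟨fun h => ?_, fun h => ?_⟩
  · obtain ⟨m, hm⟩ : ∃ m, p = 6 * m + 1 := ⟨p / 6, by omega⟩
    have hzp : z ^ p = z := by
      have := (pow_zeta p z hz m).1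
      rwa [← hm] at this
    have hc := T33.case1 p (hq p) (I p) (hI p) h3 (hS p h3) z hz hzp
    rw [← cast_T (Q := Q p) p, ← cast_T (Q := Q p) (p - 1), ← ht0, ← ht1] at hc
    have hx : (p : ℤ) ^ 3 ∣ p * ((p + 1) * D) - 12 * p ^ 2 * (-3) ^ (p - 1) := by
      apply dvd_of_Q
      rw [hrec]
      push_cast
      rw [hc, sub_self]
    obtain ⟨c, hc⟩ := hx
    have hp0 : (p : ℤ) ≠ 0 := by exact_mod_cast hp.ne_zero
    have h4 : (p + 1) * (D - 12 * p * (-3) ^ (p - 1)) = (p : ℤ) ^ 2 * (c - 12 * (-3) ^ (p - 1)) := by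
      apply mul_left_cancel₀ hp0
      linear_combination hc
    have h5 : (p : ℤ) ^ 2 ∣ D - 12 * p * (-3) ^ (p - 1) := by
      have hcop2 : IsCoprime ((p : ℤ) ^ 2) ((p : ℤ) + 1) := by
        apply IsCoprime.pow_left
        exact ⟨-1, 1, by ring⟩
      apply hcop2.dvd_of_dvd_mul_left
      exact ⟨_, h4⟩
    obtain ⟨e, he⟩ := h5
    have hDv : Dv p 3 (S p - 2 * (p : ℚ) ^ 2) := by
      refine ⟨6 * 3 ^ (p - 1), hd, e, ?_⟩
      have he' : (D : ℚ) - 12 * p * (-3) ^ (p - 1) = (p : ℚ) ^ 2 * e := by exact_mod_cast he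
      have hw' : ((-3 : ℚ)) ^ (p - 1) = 3 ^ (p - 1) := by exact_mod_cast hw
      push_cast
      rw [← hw']
      linear_combination hSD + p * he'
    exact hDv.exists_den
  · obtain ⟨m, hm⟩ : ∃ m, p = 6 * m + 5 := ⟨p / 6, by omega⟩
    have hzp : z ^ p = 1 - z := by
      have := (pow_zeta p z hz m).2
      rwa [← hm] at this
    have hc := T33.case5 p (hq p) (I p) (hI p) h3 (hS p h3) z hz hzp
    rw [← cast_T (Q := Q p) p, ← cast_T (Q := Q p) (p - 1), ← ht0, ← ht1] at hc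
    have hx : (p : ℤ) ^ 3 ∣ (p + 1) * D - (-6 * (4 * p + 3) * (-3) ^ (p - 1)) := by
      apply dvd_of_Q
      rw [hrec]
      push_cast
      rw [hc, sub_self]
    obtain ⟨c, hc⟩ := hx
    have h4 : (p + 1) * (D - 6 * (-3) ^ (p - 1) * (p ^ 2 - p - 3)) = (p : ℤ) ^ 3 *
        (c - 6 * (-3) ^ (p - 1)) := by
      linear_combination hc
    have h5 : (p : ℤ) ^ 3 ∣ D - 6 * (-3) ^ (p - 1) * (p ^ 2 - p - 3) := by
      apply hcop.dvd_of_dvd_mul_left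
      exact ⟨_, h4⟩
    obtain ⟨e, he⟩ := h5
    have hDv : Dv p 4 (S p - ((p : ℚ) ^ 3 - (p : ℚ) ^ 2 - 3 * p)) := by
      refine ⟨6 * 3 ^ (p - 1), hd, e, ?_⟩
      have he' : (D : ℚ) - 6 * (-3) ^ (p - 1) * (p ^ 2 - p - 3) = (p : ℚ) ^ 3 * e := by
        exact_mod_cast he
      have hw' : ((-3 : ℚ)) ^ (p - 1) = 3 ^ (p - 1) := by exact_mod_cast hw
      push_cast
      rw [← hw']
      linear_combination hSD + p * he'
    exact hDv.exists_den

end Pool.Agent.Results.MP_fcf7f4_nt.TrinomialMotzkin
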